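import Pool.Graph.R_pool_sql_team_seeded_f72693b1.W401.Cheb.Full

/-!
# Averages over the places of a number field
-/

set_option autoImplicit false
set_option linter.unusedSectionVars false

namespace Pool.Agent.H850.TM

open NumberField Filter Topology IsDedekindDomain
open Pool.Agent.W401.Cheb Pool.Agent.W352.ChAbs

variable {K : Type} [Field K] [NumberField K]

/-- the places of norm at most `x` -/
noncomputable def places (K : Type) [Field K] [NumberField K] (x : ℕ) :
    Finset (HeightOneSpectrum (𝓞 K)) := (finite_le (K := K) x).toFinset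

theorem mem_places (x : ℕ) (v : HeightOneSpectrum (𝓞 K)) :
    v ∈ places K x ↔ Ideal.absNorm v.asIdeal ≤ x := by
  unfold places
  rw [Set.Finite.mem_toFinset]
  rfl

open Classical in
theorem dens_eq (P : HeightOneSpectrum (𝓞 K) → Prop) (x : ℕ) :
    dens P x = (∑ v ∈ places K x, if P v then (1 : ℝ) else 0) / (Nat.primeCounting x : ℝ) := by
  unfold dens
  congr 1
  rw [Finset.sum_ite, Finset.sum_const_zero, add_zero, Finset.sum_const, nsmul_eq_mul, mul_one]
  congr 1
  have h1 : Nat.card {v : HeightOneSpectrum (𝓞 K) // Ideal.absNorm v.asIdeal ≤ x ∧ P v} =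
      Nat.card {v // v ∈ (places K x).filter P} :=
    Nat.card_congr (Equiv.subtypeEquivRight fun v => by
      rw [Finset.mem_filter, mem_places])
  rw [h1, Nat.card_eq_fintype_card, Fintype.card_coe]

/-- existence of a class function value at a Frobenius element -/
def Val {H : Type} [Group H] (φ : GK K →* H) (f : H → ℕ) (j : ℕ)
    (v : HeightOneSpectrum (𝓞 K)) : Prop := ∃ σ, IsFrob v σ ∧ f (φ σ) = j

open Classical in
theorem dens_val {H : Type} [Group H] (φ : GK K →* H) (hφ : IsOpen (φ.ker : Set (GK K)))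
    (f : H → ℕ) (hf : ∀ g h, f (h * g * h⁻¹) = f g) (j : ℕ) [Fintype φ.range] :
    Tendsto (dens (Val φ f j)) atTop
      (𝓝 (((Finset.univ.filter fun g : φ.range => f g = j).card : ℝ) / (Fintype.card φ.range : ℝ))) := by
  set C : Set (GK K) := {σ | f (φ σ) = j} with hC
  have h1 : ∀ σ ∈ C, ∀ τ : GK K, τ * σ * τ⁻¹ ∈ C := by
    intro σ hσ τ
    change f (φ (τ * σ * τ⁻¹)) = j
    rw [map_mul, map_mul, map_inv, hf]
    exact hσ
  have h2 : ∀ σ ∈ C, ∀ u ∈ φ.ker, σ * u ∈ C := by
    intro σ hσ u hu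
    change f (φ (σ * u)) = j
    rw [map_mul, MonoidHom.mem_ker.1 hu, mul_one]
    exact hσ
  have h3 := chebK K φ.ker hφ C h1 h2
  have h4 : (fun v : HeightOneSpectrum (𝓞 K) => ∃ σ ∈ C, IsFrob v σ) = Val φ f j := by
    funext v
    apply propext
    constructor
    · rintro ⟨σ, hσ, hv⟩
      exact ⟨σ, hv, hσ⟩
    · rintro ⟨σ, hv, hσ⟩
      exact ⟨σ, hσ, hv⟩
  rw [h4] at h3
  let e : GK K ⧸ φ.ker ≃* φ.range := QuotientGroup.quotientKerEquivRange φ
  have h5 : Nat.card (GK K ⧸ φ.ker) = Fintype.card φ.range := by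
    rw [Nat.card_congr e.toEquiv, Nat.card_eq_fintype_card]
  have h6 : ((QuotientGroup.mk : GK K → GK K ⧸ φ.ker) '' C).ncard =
      (Finset.univ.filter fun g : φ.range => f g = j).card := by
    rw [← Set.ncard_coe_finset, ← Set.ncard_image_of_injective _ e.injective]
    congr 1
    ext g
    simp only [Set.mem_image, Finset.coe_filter, Finset.mem_univ, true_and, Set.mem_ofPred_eq,
      exists_exists_and_eq_and]
    constructor
    · rintro ⟨σ, hσ, rfl⟩
      exact hσ
    · intro hg
      obtain ⟨σ, hσ⟩ := g.2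
      refine ⟨σ, ?_, ?_⟩
      · change f (φ σ) = j
        rw [hσ]
        exact hg
      · apply Subtype.ext
        exact hσ
  rw [h5, h6] at h3
  exact h3

open Classical in
/-- averages with the normalisation of the number of rational primes -/
theorem avg_pi {H : Type} [Group H] (φ : GK K →* H) (hφ : IsOpen (φ.ker : Set (GK K)))
    (f : H → ℕ) (hf : ∀ g h, f (h * g * h⁻¹) = f g) (B : ℕ) (hB : ∀ g, f g ≤ B)
    (a : HeightOneSpectrum (𝓞 K) → ℕ)
    (ha : {v | ¬ ∃ σ, IsFrob v σ ∧ f (φ σ) = a v}.Finite) [Fintype φ.range] (k : ℕ) :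
    Tendsto (fun x : ℕ => (∑ v ∈ places K x, (a v : ℝ) ^ k) / (Nat.primeCounting x : ℝ)) atTop
      (𝓝 ((∑ g : φ.range, (f g : ℝ) ^ k) / (Fintype.card φ.range : ℝ))) := by
  have hn : (0 : ℝ) < Fintype.card φ.range := by exact_mod_cast Fintype.card_pos
  set n : ℝ := ((Fintype.card φ.range : ℕ) : ℝ) with hn'
  set c : ℕ → ℝ := fun j => ((Finset.univ.filter fun g : φ.range => f g = j).card : ℝ) with hc
  have hP : ∀ j, Tendsto (dens (Val φ f j)) atTop (𝓝 (c j / n)) := fun j => dens_val φ hφ f hf j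
  -- all places
  have hall : Tendsto (dens (Val (K := K) φ (fun _ => 0) 0)) atTop (𝓝 1) := by
    have := dens_val (K := K) φ hφ (fun _ => 0) (fun _ _ => rfl) 0
    simp only [Finset.filter_true, Finset.card_univ] at this
    rwa [div_self hn.ne'] at this
  have hsumc : ∑ j ∈ Finset.range (B + 1), c j = n := by
    simp only [hc]
    rw [← Nat.cast_sum, hn', ← Finset.card_univ (α := φ.range)]
    congr 1
    symm
    apply Finset.card_eq_sum_card_fiberwise
    intro g _
    simp only [Finset.coe_range, Set.mem_Iio]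
    exact Nat.lt_succ_of_le (hB _)
  have hsumk : ∑ j ∈ Finset.range (B + 1), (j : ℝ) ^ k * c j = ∑ g : φ.range, (f g : ℝ) ^ k := by
    rw [← Finset.sum_fiberwise_of_maps_to (s := Finset.univ) (t := Finset.range (B + 1))
      (g := fun g : φ.range => f g)]
    · refine Finset.sum_congr rfl fun j _ => ?_
      rw [Finset.sum_congr rfl (g := fun _ => (j : ℝ) ^ k) fun g hg => by
        rw [(Finset.mem_filter.1 hg).2], Finset.sum_const, nsmul_eq_mul, mul_comm]
    · intro g _
      exact Finset.mem_range.2 (Nat.lt_succ_of_le (hB _))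
  -- indicator functions
  let ind : (HeightOneSpectrum (𝓞 K) → Prop) → HeightOneSpectrum (𝓞 K) → ℝ :=
    fun P v => if P v then 1 else 0
  have hind0 : ∀ P v, 0 ≤ ind P v := fun P v => by simp only [ind]; split_ifs <;> norm_num
  have hind1 : ∀ P v, ind P v ≤ 1 := fun P v => by simp only [ind]; split_ifs <;> norm_num
  set b := ha.toFinset with hb
  let cb : HeightOneSpectrum (𝓞 K) → ℝ := fun v =>
    if v ∈ b then (a v : ℝ) ^ k + (B + 1) * (B : ℝ) ^ k + (B : ℝ) ^ k else 0
  have hcb0 : ∀ v, 0 ≤ cb v := fun v => by simp only [cb]; split_ifs <;> positivity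
  have hpoint : ∀ v, |(a v : ℝ) ^ k - ∑ j ∈ Finset.range (B + 1), (j : ℝ) ^ k * ind (Val φ f j) v| ≤
      (B : ℝ) ^ k * (∑ j ∈ Finset.range (B + 1), ind (Val φ f j) v -
        ind (Val φ (fun _ => 0) 0) v) + cb v := by
    intro v
    have hle : ∀ s ⊆ Finset.range (B + 1), ∑ j ∈ s, (j : ℝ) ^ k * ind (Val φ f j) v ≤
        (B : ℝ) ^ k * ∑ j ∈ s, ind (Val φ f j) v := by
      intro s hs
      rw [Finset.mul_sum]
      refine Finset.sum_le_sum fun j hj => ?_
      apply mul_le_mul_of_nonneg_right _ (hind0 _ _)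
      have : j ≤ B := Nat.lt_succ_iff.1 (Finset.mem_range.1 (hs hj))
      gcongr
    have hnn : ∀ s : Finset ℕ, 0 ≤ ∑ j ∈ s, (j : ℝ) ^ k * ind (Val φ f j) v := fun s =>
      Finset.sum_nonneg fun j _ => mul_nonneg (by positivity) (hind0 _ _)
    by_cases hv : v ∈ b
    · have h1 : cb v = (a v : ℝ) ^ k + (B + 1) * (B : ℝ) ^ k + (B : ℝ) ^ k := if_pos hv
      rw [h1, abs_le]
      have h2 := hle _ subset_rfl
      have h3 : 0 ≤ ∑ j ∈ Finset.range (B + 1), ind (Val φ f j) v :=
        Finset.sum_nonneg fun j _ => hind0 _ _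
      have h4 : ∑ j ∈ Finset.range (B + 1), ind (Val φ f j) v ≤ B + 1 := by
        calc _ ≤ ∑ j ∈ Finset.range (B + 1), (1 : ℝ) := Finset.sum_le_sum fun j _ => hind1 _ _
          _ = _ := by simp
      have h5 := hind0 (Val φ (fun _ => 0) 0) v
      have h6 := hind1 (Val φ (fun _ => 0) 0) v
      have h7 := hnn (Finset.range (B + 1))
      have h8 : (0 : ℝ) ≤ (B : ℝ) ^ k := by positivity
      have h9 : (0 : ℝ) ≤ (a v : ℝ) ^ k := by positivity
      have h10 := mul_le_mul_of_nonneg_left h4 h8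
      have h11 := mul_le_mul_of_nonneg_left h6 h8
      have h12 := mul_nonneg h8 h3
      constructor <;> nlinarith
    · have h1 : cb v = 0 := if_neg hv
      rw [hb, Set.Finite.mem_toFinset] at hv
      have hv' : ∃ σ, IsFrob v σ ∧ f (φ σ) = a v := by
        by_contra hcon
        exact hv hcon
      obtain ⟨σ, hσ, hfa⟩ := hv'
      have haB : a v ∈ Finset.range (B + 1) := by
        rw [Finset.mem_range, ← hfa]
        exact Nat.lt_succ_of_le (hB _)
      have h2 : ind (Val φ f (a v)) v = 1 := if_pos ⟨σ, hσ, hfa⟩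
      have h3 : ind (Val φ (fun _ => 0) 0) v = 1 := if_pos ⟨σ, hσ, rfl⟩
      rw [h1, h3, ← Finset.add_sum_erase _ _ haB, ← Finset.add_sum_erase _ _ haB, h2, mul_one,
        add_zero]
      have h4 := hle ((Finset.range (B + 1)).erase (a v)) (Finset.erase_subset _ _)
      have h5 := hnn ((Finset.range (B + 1)).erase (a v))
      rw [abs_le]
      constructor <;> linarith
  -- sum over the places
  have hsum : ∀ x, |(∑ v ∈ places K x, (a v : ℝ) ^ k) / (Nat.primeCounting x : ℝ) -
      ∑ j ∈ Finset.range (B + 1), (j : ℝ) ^ k * dens (Val φ f j) x| ≤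
      (B : ℝ) ^ k * (∑ j ∈ Finset.range (B + 1), dens (Val φ f j) x -
        dens (Val (K := K) φ (fun _ => 0) 0) x) + (∑ v ∈ b, cb v) / (Nat.primeCounting x : ℝ) := by
    intro x
    set px : ℝ := (Nat.primeCounting x : ℝ) with hpx
    have hpx0 : 0 ≤ px := Nat.cast_nonneg _
    have h1 : ∑ j ∈ Finset.range (B + 1), (j : ℝ) ^ k * dens (Val φ f j) x =
        (∑ v ∈ places K x, ∑ j ∈ Finset.range (B + 1), (j : ℝ) ^ k * ind (Val φ f j) v) / px := by
      rw [Finset.sum_comm, Finset.sum_div]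
      refine Finset.sum_congr rfl fun j _ => ?_
      rw [dens_eq, ← mul_div_assoc, Finset.mul_sum]
    have h2 : ∑ j ∈ Finset.range (B + 1), dens (Val φ f j) x =
        (∑ v ∈ places K x, ∑ j ∈ Finset.range (B + 1), ind (Val φ f j) v) / px := by
      rw [Finset.sum_comm, Finset.sum_div]
      exact Finset.sum_congr rfl fun j _ => by rw [dens_eq]
    have h3 : dens (Val (K := K) φ (fun _ => 0) 0) x =
        (∑ v ∈ places K x, ind (Val φ (fun _ => 0) 0) v) / px := by rw [dens_eq]
    rw [h1, h2, h3, ← sub_div, ← sub_div, abs_div, abs_of_nonneg hpx0, ← mul_div_assoc, ← add_div,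
      ← Finset.sum_sub_distrib, ← Finset.sum_sub_distrib]
    apply div_le_div_of_nonneg_right _ hpx0
    refine (Finset.abs_sum_le_sum_abs _ _).trans ?_
    refine (Finset.sum_le_sum fun v _ => hpoint v).trans ?_
    rw [Finset.sum_add_distrib, ← Finset.mul_sum]
    apply add_le_add le_rfl
    have h4 : ∑ v ∈ places K x, cb v = ∑ v ∈ (places K x).filter (· ∈ b), cb v := by
      rw [Finset.sum_filter]
      refine Finset.sum_congr rfl fun v _ => ?_
      by_cases hv : v ∈ b
      · rw [if_pos hv]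
      · rw [if_neg hv]
        exact if_neg hv
    rw [h4]
    exact Finset.sum_le_sum_of_subset_of_nonneg (fun v hv => (Finset.mem_filter.1 hv).2)
      fun v _ _ => hcb0 v
  -- the limit
  have hlim1 : Tendsto (fun x => ∑ j ∈ Finset.range (B + 1), (j : ℝ) ^ k * dens (Val φ f j) x)
      atTop (𝓝 ((∑ g : φ.range, (f g : ℝ) ^ k) / n)) := by
    rw [← hsumk, Finset.sum_div]
    refine tendsto_finset_sum _ fun j _ => ?_
    rw [mul_div_assoc]
    exact (hP j).const_mul _
  have hlim2 : Tendsto (fun x => (B : ℝ) ^ k * (∑ j ∈ Finset.range (B + 1), dens (Val φ f j) x -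
        dens (Val (K := K) φ (fun _ => 0) 0) x) + (∑ v ∈ b, cb v) / (Nat.primeCounting x : ℝ))
      atTop (𝓝 0) := by
    have h1 : Tendsto (fun x => ∑ j ∈ Finset.range (B + 1), dens (Val φ f j) x) atTop (𝓝 1) := by
      have : (1 : ℝ) = ∑ j ∈ Finset.range (B + 1), c j / n := by
        rw [← Finset.sum_div, hsumc, div_self hn.ne']
      rw [this]
      exact tendsto_finset_sum _ fun j _ => hP j
    have h2 := ((h1.sub hall).const_mul ((B : ℝ) ^ k)).add (const_div_pi (∑ v ∈ b, cb v))
    simpa using h2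
  have h1 := squeeze_zero (fun x => abs_nonneg _) hsum hlim2
  have h2 := (tendsto_zero_iff_abs_tendsto_zero _).2 h1
  have h3 := h2.add hlim1
  simpa using h3

/-- **Averages over the places.** -/
theorem average_tendsto {H : Type} [Group H] (φ : GK K →* H) (hφ : IsOpen (φ.ker : Set (GK K)))
    (f : H → ℕ) (hf : ∀ g h, f (h * g * h⁻¹) = f g) (B : ℕ) (hB : ∀ g, f g ≤ B)
    (a : HeightOneSpectrum (𝓞 K) → ℕ)
    (ha : {v | ¬ ∃ σ, IsFrob v σ ∧ f (φ σ) = a v}.Finite) [Fintype φ.range] (k : ℕ) :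
    Tendsto (fun x : ℕ => (∑ v ∈ places K x, (a v : ℝ) ^ k) / ((places K x).card : ℝ)) atTop
      (𝓝 ((∑ g : φ.range, (f g : ℝ) ^ k) / (Fintype.card φ.range : ℝ))) := by
  have hn : (0 : ℝ) < Fintype.card φ.range := by exact_mod_cast Fintype.card_pos
  have h1 := avg_pi φ hφ f hf B hB a ha k
  have h2 := avg_pi φ hφ f hf B hB a ha 0
  simp only [pow_zero, Finset.sum_const, nsmul_eq_mul, mul_one, Finset.card_univ] at h2
  rw [div_self hn.ne'] at h2
  have h3 := h1.div h2 one_ne_zero
  rw [div_one] at h3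
  refine h3.congr' ?_
  have hpi : Tendsto (fun N : ℕ => (Nat.primeCounting N : ℝ)) atTop atTop :=
    tendsto_natCast_atTop_atTop.comp Nat.tendsto_primeCounting
  filter_upwards [hpi.eventually_gt_atTop 0] with x hx
  simp only [Pi.div_apply]
  rw [div_div_div_cancel_right₀ hx.ne']

end Pool.Agent.H850.TM
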