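import Mathlib

/-!
# Sums over the submodules of `(ℤ / m) ^ N`
-/

set_option autoImplicit false

namespace Pool.Agent.H850.TM

open Finset

/-- a finite module over `ℤ / m` has at most as many linear forms as elements -/
theorem card_dual_le (m : ℕ) [NeZero m] (Q : Type) [AddCommGroup Q] [Module (ZMod m) Q] [Finite Q] :
    Nat.card (Q →ₗ[ZMod m] ZMod m) ≤ Nat.card Q := by
  classical
  have : Fintype Q := Fintype.ofFinite Q
  have hinj : Function.Injective fun f : Q →ₗ[ZMod m] ZMod m =>
      (ZMod.stdAddChar (N := m)).compAddMonoidHom f.toAddMonoidHom := by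
    intro f g h
    have h1 := AddChar.compAddMonoidHom_injective_right (ZMod.stdAddChar (N := m))
      ZMod.injective_stdAddChar h
    ext x
    exact DFunLike.congr_fun h1 x
  have h2 := Nat.card_le_card_of_injective _ hinj
  refine h2.trans ?_
  rw [Nat.card_eq_fintype_card, AddChar.card_eq, Nat.card_eq_fintype_card]

instance (m : ℕ) [NeZero m] (Q : Type) [AddCommGroup Q] [Module (ZMod m) Q] [Finite Q] :
    Finite (Q →ₗ[ZMod m] ZMod m) :=
  Finite.of_injective (fun f => (f : Q → ZMod m)) DFunLike.coe_injective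

theorem card_hom_le (m : ℕ) [NeZero m] (Q : Type) [AddCommGroup Q] [Module (ZMod m) Q] [Finite Q]
    (N : ℕ) : Nat.card (Q →ₗ[ZMod m] (Fin N → ZMod m)) ≤ Nat.card Q ^ N := by
  classical
  have hinj : Function.Injective fun (f : Q →ₗ[ZMod m] (Fin N → ZMod m)) (i : Fin N) =>
      (LinearMap.proj i : (Fin N → ZMod m) →ₗ[ZMod m] ZMod m) ∘ₗ f := by
    intro f g h
    ext x i
    exact LinearMap.congr_fun (congrFun h i) x
  refine (Nat.card_le_card_of_injective _ hinj).trans ?_
  rw [Nat.card_fun, Nat.card_fin]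
  exact Nat.pow_le_pow_left (card_dual_le m Q) N

section

variable (m : ℕ) [NeZero m]

/-- the proportion of a submodule: the inverse of its index -/
noncomputable def wt {N : ℕ} (I : Submodule (ZMod m) (Fin N → ZMod m)) : ℝ :=
  (Nat.card I : ℝ) / (m : ℝ) ^ N

omit [NeZero m] in
theorem card_T (N : ℕ) : Nat.card (Fin N → ZMod m) = m ^ N := by
  rw [Nat.card_fun, Nat.card_zmod, Nat.card_fin]

theorem wt_pos {N : ℕ} (I : Submodule (ZMod m) (Fin N → ZMod m)) : 0 < wt m I := by
  have h1 : (0 : ℝ) < m := by exact_mod_cast Nat.pos_of_ne_zero (NeZero.ne m)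
  have h2 : (0 : ℝ) < Nat.card I := by exact_mod_cast Nat.card_pos
  unfold wt
  positivity

theorem wt_mul_quot {N : ℕ} (I : Submodule (ZMod m) (Fin N → ZMod m)) :
    wt m I * (Nat.card ((Fin N → ZMod m) ⧸ I) : ℝ) = 1 := by
  have h1 : (0 : ℝ) < m := by exact_mod_cast Nat.pos_of_ne_zero (NeZero.ne m)
  have h2 := Submodule.card_eq_card_quotient_mul_card I
  rw [card_T] at h2
  have h3 : (m : ℝ) ^ N = (Nat.card I : ℝ) * (Nat.card ((Fin N → ZMod m) ⧸ I) : ℝ) := by
    exact_mod_cast h2
  unfold wt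
  rw [div_mul_eq_mul_div, ← h3]
  exact div_self (by positivity)

theorem wt_le_one {N : ℕ} (I : Submodule (ZMod m) (Fin N → ZMod m)) : wt m I ≤ 1 := by
  have h1 := wt_mul_quot m I
  have h2 : (1 : ℝ) ≤ Nat.card ((Fin N → ZMod m) ⧸ I) := by
    exact_mod_cast Nat.one_le_iff_ne_zero.2 Nat.card_pos.ne'
  nlinarith [wt_pos m I]

/-- the sum of the `s`-th powers of the inverses of the indices of all submodules -/
noncomputable def Zs (N s : ℕ) : ℝ := ∑ᶠ I : Submodule (ZMod m) (Fin N → ZMod m), wt m I ^ s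

omit [NeZero m] in
theorem Zs_eq (N s : ℕ) [Fintype (Submodule (ZMod m) (Fin N → ZMod m))] :
    Zs m N s = ∑ I : Submodule (ZMod m) (Fin N → ZMod m), wt m I ^ s :=
  finsum_eq_sum_of_fintype _

/-- sum over the ideals of `ℤ / m` -/
noncomputable def Z1 (s : ℕ) : ℝ :=
  ∑ᶠ J : Submodule (ZMod m) (ZMod m), ((Nat.card J : ℝ) / m) ^ s

omit [NeZero m] in
theorem Z1_eq (s : ℕ) [Fintype (Submodule (ZMod m) (ZMod m))] :
    Z1 m s = ∑ J : Submodule (ZMod m) (ZMod m), ((Nat.card J : ℝ) / m) ^ s :=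
  finsum_eq_sum_of_fintype _

/-- an ideal of `ℤ / m` is generated by its index -/
theorem ideal_eq_span (J : Submodule (ZMod m) (ZMod m)) :
      J = Submodule.span (ZMod m) {((Nat.card (ZMod m ⧸ J) : ℕ) : ZMod m)} := by
    set d := Nat.card (ZMod m ⧸ J) with hd
    have hd0 : 0 < d := Nat.card_pos
    have hle : Submodule.span (ZMod m) {((d : ℕ) : ZMod m)} ≤ J := by
      rw [Submodule.span_singleton_le_iff_mem, ← Submodule.Quotient.mk_eq_zero J]
      have h1 : (Submodule.Quotient.mk ((d : ℕ) : ZMod m) : ZMod m ⧸ J) =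
          d • (Submodule.Quotient.mk (1 : ZMod m)) := by
        rw [← Submodule.Quotient.mk_smul, nsmul_eq_mul, mul_one]
      rw [h1, hd]
      have h2 := card_nsmul_eq_zero' (G := ZMod m ⧸ J) (x := Submodule.Quotient.mk (1 : ZMod m))
      exact h2
    have hcard : Nat.card (ZMod m ⧸ Submodule.span (ZMod m) {((d : ℕ) : ZMod m)}) ≤ d := by
      have hsurj : Function.Surjective fun i : Fin d =>
          (Submodule.Quotient.mk ((i : ℕ) : ZMod m) :
            ZMod m ⧸ Submodule.span (ZMod m) {((d : ℕ) : ZMod m)}) := by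
        intro q
        obtain ⟨x, rfl⟩ := Submodule.Quotient.mk_surjective _ q
        refine ⟨⟨x.val % d, Nat.mod_lt _ hd0⟩, ?_⟩
        simp only
        rw [Submodule.Quotient.eq, Submodule.mem_span_singleton]
        refine ⟨-((x.val / d : ℕ) : ZMod m), ?_⟩
        have h3 : (x : ZMod m) = ((x.val % d : ℕ) : ZMod m) + (d : ZMod m) * ((x.val / d : ℕ) : ZMod m) := by
          rw [← Nat.cast_mul, ← Nat.cast_add, Nat.mod_add_div, ZMod.natCast_zmod_val]
        rw [smul_eq_mul]
        calc -((x.val / d : ℕ) : ZMod m) * (d : ZMod m)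
            = ((x.val % d : ℕ) : ZMod m) -
              (((x.val % d : ℕ) : ZMod m) + (d : ZMod m) * ((x.val / d : ℕ) : ZMod m)) := by ring
          _ = _ := by rw [← h3]
      have h4 := Nat.card_le_card_of_surjective _ hsurj
      rwa [Nat.card_fin] at h4
    have h5 := Submodule.card_eq_card_quotient_mul_card J
    have h6 := Submodule.card_eq_card_quotient_mul_card
      (Submodule.span (ZMod m) {((d : ℕ) : ZMod m)})
    rw [← hd] at h5
    have h7 : Nat.card J ≤ Nat.card (Submodule.span (ZMod m) {((d : ℕ) : ZMod m)}) := by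
      rw [h5] at h6
      have h8 : Nat.card (Submodule.span (ZMod m) {((d : ℕ) : ZMod m)}) *
          Nat.card (ZMod m ⧸ Submodule.span (ZMod m) {((d : ℕ) : ZMod m)}) ≤
          Nat.card (Submodule.span (ZMod m) {((d : ℕ) : ZMod m)}) * d :=
        Nat.mul_le_mul_left _ hcard
      rw [← h6] at h8
      exact Nat.le_of_mul_le_mul_right h8 hd0
    apply SetLike.coe_injective
    symm
    exact Set.eq_of_subset_of_ncard_le hle h7

/-- an ideal of `ℤ / m` is determined by its index -/
theorem ideal_inj {J J' : Submodule (ZMod m) (ZMod m)}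
    (h : Nat.card (ZMod m ⧸ J) = Nat.card (ZMod m ⧸ J')) : J = J' := by
  rw [ideal_eq_span m J, ideal_eq_span m J', h]

end

theorem sum_pow_le (s : ℕ) (hs : 2 ≤ s) (m : ℕ) :
    ∑ d ∈ Finset.Icc 1 m, (1 / (d : ℝ)) ^ s ≤ 1 + 3 / 2 ^ s := by
  have h2s : (0 : ℝ) < 2 ^ s := by positivity
  have key : ∀ m : ℕ, 2 ≤ m →
      ∑ d ∈ Finset.Icc 1 m, (1 / (d : ℝ)) ^ s ≤ 1 + (3 - 4 / (m : ℝ)) / 2 ^ s := by
    intro m hm
    induction m, hm using Nat.le_induction with
    | base =>
      rw [show Finset.Icc 1 2 = ({1, 2} : Finset ℕ) from rfl, Finset.sum_pair (by norm_num)]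
      norm_num
      rw [one_div, inv_pow]
    | succ m hm ih =>
      rw [Finset.sum_Icc_succ_top (by omega)]
      have hm0 : (0 : ℝ) < m := by exact_mod_cast (by omega : 0 < m)
      have hm2 : (2 : ℝ) ≤ (m : ℝ) + 1 := by
        have : (2 : ℝ) ≤ m := by exact_mod_cast hm
        linarith
      have h1 : (1 / ((m + 1 : ℕ) : ℝ)) ^ s ≤ (4 / (((m : ℝ) + 1) ^ 2)) / 2 ^ s := by
        rw [Nat.cast_add, Nat.cast_one, le_div_iff₀ h2s, ← mul_pow]
        have h3 : 1 / ((m : ℝ) + 1) * 2 ≤ 1 := by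
          rw [div_mul_eq_mul_div, one_mul, div_le_one (by positivity)]
          exact hm2
        calc (1 / ((m : ℝ) + 1) * 2) ^ s ≤ (1 / ((m : ℝ) + 1) * 2) ^ 2 :=
              pow_le_pow_of_le_one (by positivity) h3 hs
          _ = _ := by field_simp; norm_num
      have h4 : 4 / (((m : ℝ) + 1) ^ 2) ≤ 4 / (m : ℝ) - 4 / ((m : ℝ) + 1) := by
        rw [div_sub_div _ _ hm0.ne' (by positivity), div_le_div_iff₀ (by positivity) (by positivity)]
        nlinarith
      have h5 : (4 / (((m : ℝ) + 1) ^ 2)) / 2 ^ s ≤ (4 / (m : ℝ) - 4 / ((m : ℝ) + 1)) / 2 ^ s := by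
        gcongr
      rw [Nat.cast_add, Nat.cast_one] at *
      calc _ ≤ (1 + (3 - 4 / (m : ℝ)) / 2 ^ s) + (4 / (m : ℝ) - 4 / ((m : ℝ) + 1)) / 2 ^ s := by
            linarith
        _ = _ := by ring
  rcases Nat.lt_or_ge m 2 with h | h
  · interval_cases m
    · simp
      positivity
    · simp
      positivity
  · refine (key m h).trans ?_
    have : (0 : ℝ) < m := by exact_mod_cast (by omega : 0 < m)
    gcongr
    linarith [show (0 : ℝ) ≤ 4 / (m : ℝ) by positivity]

section

variable (m : ℕ) [NeZero m]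

theorem ideal_wt (J : Submodule (ZMod m) (ZMod m)) :
    (Nat.card J : ℝ) / m = 1 / (Nat.card (ZMod m ⧸ J) : ℝ) := by
  have h1 := Submodule.card_eq_card_quotient_mul_card J
  rw [Nat.card_zmod] at h1
  have h2 : (m : ℝ) = (Nat.card J : ℝ) * (Nat.card (ZMod m ⧸ J) : ℝ) := by exact_mod_cast h1
  have h3 : (0 : ℝ) < Nat.card J := by exact_mod_cast Nat.card_pos
  have h4 : (0 : ℝ) < Nat.card (ZMod m ⧸ J) := by exact_mod_cast Nat.card_pos
  rw [h2]
  field_simp

theorem Z1_le (s : ℕ) (hs : 2 ≤ s) : Z1 m s ≤ 1 + 3 / 2 ^ s := by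
  classical
  have : Fintype (Submodule (ZMod m) (ZMod m)) := Fintype.ofFinite _
  rw [Z1_eq]
  refine le_trans ?_ (sum_pow_le s hs m)
  have hinj : Function.Injective fun J : Submodule (ZMod m) (ZMod m) => Nat.card (ZMod m ⧸ J) :=
    fun J J' h => ideal_inj m h
  have h1 : ∑ J : Submodule (ZMod m) (ZMod m), ((Nat.card J : ℝ) / m) ^ s =
      ∑ d ∈ Finset.univ.image fun J : Submodule (ZMod m) (ZMod m) => Nat.card (ZMod m ⧸ J),
        (1 / (d : ℝ)) ^ s := by
    rw [Finset.sum_image fun J _ J' _ h => hinj h]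
    exact Finset.sum_congr rfl fun J _ => by rw [ideal_wt]
  rw [h1]
  apply Finset.sum_le_sum_of_subset_of_nonneg
  · intro d hd
    obtain ⟨J, -, rfl⟩ := Finset.mem_image.1 hd
    rw [Finset.mem_Icc]
    refine ⟨Nat.card_pos, ?_⟩
    have h2 := Submodule.card_eq_card_quotient_mul_card J
    rw [Nat.card_zmod] at h2
    exact (Nat.le_mul_of_pos_left _ Nat.card_pos).trans h2.ge
  · intro d _ _
    positivity

/-- embedding of the last coordinates -/
def cns (N : ℕ) : (Fin N → ZMod m) →ₗ[ZMod m] (Fin (N + 1) → ZMod m) where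
  toFun x := Fin.cons 0 x
  map_add' x y := by
    funext i
    refine Fin.cases ?_ (fun j => ?_) i <;> simp
  map_smul' c x := by
    funext i
    refine Fin.cases ?_ (fun j => ?_) i <;> simp

/-- the part with first coordinate zero -/
def low {N : ℕ} (I : Submodule (ZMod m) (Fin (N + 1) → ZMod m)) :
    Submodule (ZMod m) (Fin N → ZMod m) := I.comap (cns m N)

/-- the first coordinates -/
def top {N : ℕ} (I : Submodule (ZMod m) (Fin (N + 1) → ZMod m)) :
    Submodule (ZMod m) (ZMod m) := I.map (LinearMap.proj 0)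

omit [NeZero m] in
theorem card_low_top {N : ℕ} (I : Submodule (ZMod m) (Fin (N + 1) → ZMod m)) :
    Nat.card I = Nat.card (low m I) * Nat.card (top m I) := by
  let f : I →ₗ[ZMod m] ZMod m :=
    (LinearMap.proj 0 : (Fin (N + 1) → ZMod m) →ₗ[ZMod m] ZMod m) ∘ₗ I.subtype
  have h1 := Submodule.card_eq_card_quotient_mul_card (LinearMap.ker f)
  have h2 : Nat.card (I ⧸ LinearMap.ker f) = Nat.card (top m I) := by
    rw [Nat.card_congr f.quotKerEquivRange.toEquiv]
    have : LinearMap.range f = top m I := by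
      rw [LinearMap.range_comp, Submodule.range_subtype]
      rfl
    rw [this]
  have h3 : Nat.card (LinearMap.ker f) = Nat.card (low m I) := by
    refine Nat.card_congr
      { toFun := fun x => ⟨Fin.tail x.1.1, ?_⟩
        invFun := fun y => ⟨⟨cns m N y.1, y.2⟩, ?_⟩
        left_inv := ?_
        right_inv := ?_ }
    · change Fin.cons 0 (Fin.tail x.1.1) ∈ I
      have hx : x.1.1 0 = 0 := x.2
      have h4 : (Fin.cons 0 (Fin.tail x.1.1) : Fin (N + 1) → ZMod m) = x.1.1 := by
        rw [← hx]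
        exact Fin.cons_self_tail _
      rw [h4]
      exact x.1.2
    · change (Fin.cons 0 y.1 : Fin (N + 1) → ZMod m) 0 = 0
      rfl
    · intro x
      apply Subtype.ext
      apply Subtype.ext
      have hx : x.1.1 0 = 0 := x.2
      change Fin.cons 0 (Fin.tail x.1.1) = x.1.1
      rw [← hx]
      exact Fin.cons_self_tail _
    · intro y
      apply Subtype.ext
      exact Fin.tail_cons (α := fun _ => ZMod m) (0 : ZMod m) y.1
  rw [h1, h2, h3]

theorem wt_low_top {N : ℕ} (I : Submodule (ZMod m) (Fin (N + 1) → ZMod m)) :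
    wt m I = wt m (low m I) * ((Nat.card (top m I) : ℝ) / m) := by
  unfold wt
  rw [card_low_top, Nat.cast_mul, pow_succ]
  field_simp

theorem fibre_card {N : ℕ} [Fintype (Submodule (ZMod m) (Fin (N + 1) → ZMod m))]
    [DecidableEq (Submodule (ZMod m) (Fin N → ZMod m) × Submodule (ZMod m) (ZMod m))]
    (A : Submodule (ZMod m) (Fin N → ZMod m)) (B : Submodule (ZMod m) (ZMod m)) :
    (Finset.univ.filter fun I : Submodule (ZMod m) (Fin (N + 1) → ZMod m) =>
      (low m I, top m I) = (A, B)).card ≤ Nat.card ((Fin N → ZMod m) ⧸ A) := by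
  classical
  have hex : ∀ I : {I : Submodule (ZMod m) (Fin (N + 1) → ZMod m) // (low m I, top m I) = (A, B)},
      ∃ x : Fin N → ZMod m, (Fin.cons ((Nat.card (ZMod m ⧸ B) : ℕ) : ZMod m) x :
        Fin (N + 1) → ZMod m) ∈ I.1 := by
    intro I
    have h1 : top m I.1 = B := (Prod.mk.inj I.2).2
    have h2 : ((Nat.card (ZMod m ⧸ B) : ℕ) : ZMod m) ∈ top m I.1 := by
      rw [h1]
      exact (ideal_eq_span m B).symm.le (Submodule.mem_span_singleton_self _)
    obtain ⟨y, hy, hy0⟩ := h2
    refine ⟨Fin.tail y, ?_⟩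
    have h4 : (Fin.cons ((Nat.card (ZMod m ⧸ B) : ℕ) : ZMod m) (Fin.tail y) :
        Fin (N + 1) → ZMod m) = y := by
      have h5 : y 0 = ((Nat.card (ZMod m ⧸ B) : ℕ) : ZMod m) := hy0
      rw [← h5]
      exact Fin.cons_self_tail _
    exact h4.symm ▸ hy
  choose x hx using hex
  have hle : ∀ I I' : {I : Submodule (ZMod m) (Fin (N + 1) → ZMod m) //
      (low m I, top m I) = (A, B)}, x I - x I' ∈ A → I.1 ≤ I'.1 := by
    intro I I' h z hz
    have h1 : top m I.1 = B := (Prod.mk.inj I.2).2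
    have h2 : low m I.1 = A := (Prod.mk.inj I.2).1
    have h2' : low m I'.1 = A := (Prod.mk.inj I'.2).1
    set g : ZMod m := ((Nat.card (ZMod m ⧸ B) : ℕ) : ZMod m) with hg
    have h3 : z 0 ∈ B := by
      rw [← h1]
      exact ⟨z, hz, rfl⟩
    rw [ideal_eq_span m B, Submodule.mem_span_singleton] at h3
    obtain ⟨r, hr⟩ := h3
    have hr' : r * g = z 0 := hr
    -- the difference lies in the lower part
    have h4 : (cns m N (Fin.tail z - r • x I)) ∈ I.1 := by
      have h5 : cns m N (Fin.tail z - r • x I) = z - r • (Fin.cons g (x I) : Fin (N + 1) → ZMod m) := by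
        funext i
        refine Fin.cases ?_ (fun j => ?_) i
        · simp [cns, hr']
        · simp [cns, Fin.tail]
      rw [h5]
      exact I.1.sub_mem hz (I.1.smul_mem _ (hx I))
    have h6 : Fin.tail z - r • x I ∈ A := by
      rw [← h2]
      exact h4
    have h7 : Fin.tail z - r • x I' ∈ A := by
      have : Fin.tail z - r • x I' = (Fin.tail z - r • x I) + r • (x I - x I') := by
        rw [smul_sub]; abel
      rw [this]
      exact A.add_mem h6 (A.smul_mem _ h)
    have h8 : cns m N (Fin.tail z - r • x I') ∈ I'.1 := by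
      rw [← h2'] at h7
      exact h7
    have h9 : z = cns m N (Fin.tail z - r • x I') +
        r • (Fin.cons g (x I') : Fin (N + 1) → ZMod m) := by
      funext i
      refine Fin.cases ?_ (fun j => ?_) i
      · simp [cns, hr']
      · simp [cns, Fin.tail]
    rw [h9]
    exact I'.1.add_mem h8 (I'.1.smul_mem _ (hx I'))
  have hinj : Function.Injective fun I : {I : Submodule (ZMod m) (Fin (N + 1) → ZMod m) //
      (low m I, top m I) = (A, B)} => (Submodule.Quotient.mk (x I) : (Fin N → ZMod m) ⧸ A) := by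
    intro I I' h
    have h1 : x I - x I' ∈ A := (Submodule.Quotient.eq A).1 h
    have h2 : x I' - x I ∈ A := by
      rw [← neg_sub]
      exact A.neg_mem h1
    exact Subtype.ext (le_antisymm (hle I I' h1) (hle I' I h2))
  have h1 := Nat.card_le_card_of_injective _ hinj
  rwa [Nat.card_eq_fintype_card, Fintype.card_subtype] at h1

theorem Zs_succ (N s : ℕ) (hs : 1 ≤ s) : Zs m (N + 1) s ≤ Zs m N (s - 1) * Z1 m s := by
  classical
  have : Fintype (Submodule (ZMod m) (ZMod m)) := Fintype.ofFinite _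
  have : Fintype (Submodule (ZMod m) (Fin N → ZMod m)) := Fintype.ofFinite _
  have : Fintype (Submodule (ZMod m) (Fin (N + 1) → ZMod m)) := Fintype.ofFinite _
  have hm : (0 : ℝ) < m := by exact_mod_cast Nat.pos_of_ne_zero (NeZero.ne m)
  rw [Zs_eq, Zs_eq, Z1_eq]
  let F : Submodule (ZMod m) (Fin N → ZMod m) × Submodule (ZMod m) (ZMod m) → ℝ :=
    fun p => (wt m p.1 * ((Nat.card p.2 : ℝ) / m)) ^ s
  have hF : ∀ p, 0 ≤ F p := by
    intro p
    have := (wt_pos m p.1).le
    simp only [F]
    positivity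
  calc ∑ I : Submodule (ZMod m) (Fin (N + 1) → ZMod m), wt m I ^ s
      = ∑ I : Submodule (ZMod m) (Fin (N + 1) → ZMod m), F (low m I, top m I) :=
        Finset.sum_congr rfl fun I _ => by rw [wt_low_top]
    _ = ∑ b ∈ Finset.univ.image fun I : Submodule (ZMod m) (Fin (N + 1) → ZMod m) =>
          (low m I, top m I), (Finset.univ.filter fun I => (low m I, top m I) = b).card • F b :=
        Finset.sum_comp F _
    _ ≤ ∑ b ∈ Finset.univ.image fun I : Submodule (ZMod m) (Fin (N + 1) → ZMod m) =>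
          (low m I, top m I), (Nat.card ((Fin N → ZMod m) ⧸ b.1) : ℝ) * F b := by
        refine Finset.sum_le_sum fun b _ => ?_
        rw [nsmul_eq_mul]
        apply mul_le_mul_of_nonneg_right _ (hF b)
        exact_mod_cast fibre_card m b.1 b.2
    _ ≤ ∑ b : Submodule (ZMod m) (Fin N → ZMod m) × Submodule (ZMod m) (ZMod m),
          (Nat.card ((Fin N → ZMod m) ⧸ b.1) : ℝ) * F b := by
        refine Finset.sum_le_sum_of_subset_of_nonneg (Finset.subset_univ _) fun b _ _ => ?_
        have := hF b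
        positivity
    _ = ∑ b : Submodule (ZMod m) (Fin N → ZMod m) × Submodule (ZMod m) (ZMod m),
          wt m b.1 ^ (s - 1) * ((Nat.card b.2 : ℝ) / m) ^ s := by
        refine Finset.sum_congr rfl fun b _ => ?_
        have h1 := wt_mul_quot m b.1
        obtain ⟨t, rfl⟩ : ∃ t, s = t + 1 := ⟨s - 1, by omega⟩
        simp only [F, Nat.add_sub_cancel]
        rw [mul_pow, pow_succ (wt m b.1) t]
        calc _ = (wt m b.1 * (Nat.card ((Fin N → ZMod m) ⧸ b.1) : ℝ)) * wt m b.1 ^ t *
              ((Nat.card b.2 : ℝ) / m) ^ (t + 1) := by ring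
          _ = _ := by rw [h1, one_mul]
    _ = _ := by
        rw [Fintype.sum_prod_type, Finset.sum_mul]
        refine Finset.sum_congr rfl fun A _ => ?_
        rw [Finset.mul_sum]

/-- the constant -/
noncomputable def cst : ℕ → ℕ → ℝ
  | 0, _ => 1
  | N + 1, s => cst N (s - 1) * (1 + 3 / 2 ^ s)

theorem Zs_le (N : ℕ) : ∀ s, N + 1 ≤ s → Zs m N s ≤ cst N s := by
  induction N with
  | zero =>
    intro s _
    have : Fintype (Submodule (ZMod m) (Fin 0 → ZMod m)) := Fintype.ofFinite _
    rw [Zs_eq, Fintype.sum_subsingleton _ (⊤ : Submodule (ZMod m) (Fin 0 → ZMod m))]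
    unfold wt cst
    simp
  | succ N ih =>
    intro s hs
    refine (Zs_succ m N s (by omega)).trans ?_
    have h1 := ih (s - 1) (by omega)
    have h2 := Z1_le m s (by omega)
    have h3 : 0 ≤ Z1 m s := by
      have : Fintype (Submodule (ZMod m) (ZMod m)) := Fintype.ofFinite _
      rw [Z1_eq]
      positivity
    have h4 : 0 ≤ Zs m N (s - 1) := by
      have : Fintype (Submodule (ZMod m) (Fin N → ZMod m)) := Fintype.ofFinite _
      rw [Zs_eq]
      exact Finset.sum_nonneg fun I _ => pow_nonneg (wt_pos m I).le _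
    have h5 : cst (N + 1) s = cst N (s - 1) * (1 + 3 / 2 ^ s) := rfl
    rw [h5]
    exact mul_le_mul h1 h2 h3 (h4.trans h1)

end

theorem cst_nonneg : ∀ N s, 0 < cst N s
  | 0, _ => one_pos
  | N + 1, s => mul_pos (cst_nonneg N (s - 1)) (by positivity)

end Pool.Agent.H850.TM
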