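import Pool.Agent.H850.TM.Index

/-!
# The orders of the reductions of a group of integral `ℓ`-adic matrices
-/

set_option autoImplicit false
set_option linter.unusedSectionVars false

namespace Pool.Agent.H850.TM

open Filter Topology

variable {ℓ : ℕ} [Fact ℓ.Prime] {N : ℕ}

/-- the matrices which are congruent to one modulo `ℓ ^ n` -/
theorem mem_ker_red {n : ℕ} {g : GL (Fin N) ℤ_[ℓ]} : g ∈ (red ℓ N n).ker ↔
    ∃ x : Matrix (Fin N) (Fin N) ℤ_[ℓ],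
      (g : Matrix (Fin N) (Fin N) ℤ_[ℓ]) = 1 + (ℓ : ℤ_[ℓ]) ^ n • x := by
  have h0 : ∀ i j, PadicInt.toZModPow n ((1 : Matrix (Fin N) (Fin N) ℤ_[ℓ]) i j) =
      (1 : Matrix (Fin N) (Fin N) (ZMod (ℓ ^ n))) i j := by
    intro i j
    rw [Matrix.one_apply, Matrix.one_apply]
    split_ifs
    · exact map_one _
    · exact map_zero _
  rw [MonoidHom.mem_ker]
  constructor
  · intro h
    have h1 : ∀ i j, ∃ c : ℤ_[ℓ], (g : Matrix (Fin N) (Fin N) ℤ_[ℓ]) i j -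
        (1 : Matrix (Fin N) (Fin N) ℤ_[ℓ]) i j = (ℓ : ℤ_[ℓ]) ^ n * c := by
      intro i j
      have h2 : (red ℓ N n g : Matrix (Fin N) (Fin N) (ZMod (ℓ ^ n))) i j =
          (1 : Matrix (Fin N) (Fin N) (ZMod (ℓ ^ n))) i j := by
        rw [h]
        rfl
      rw [red_apply, ← h0 i j, ← sub_eq_zero, ← map_sub, ← RingHom.mem_ker,
        PadicInt.ker_toZModPow, Ideal.mem_span_singleton] at h2
      exact h2
    choose c hc using h1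
    refine ⟨Matrix.of c, ?_⟩
    ext i j
    have := hc i j
    rw [sub_eq_iff_eq_add'] at this
    rw [this]
    simp
  · rintro ⟨x, hx⟩
    apply Units.ext
    ext i j
    rw [red_apply, hx, Matrix.add_apply, map_add, h0, Matrix.smul_apply, smul_eq_mul, map_mul]
    have h2 : PadicInt.toZModPow n ((ℓ : ℤ_[ℓ]) ^ n) = 0 := by
      rw [← RingHom.mem_ker, PadicInt.ker_toZModPow]
      exact Ideal.mem_span_singleton_self _
    rw [h2, zero_mul, add_zero]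
    rfl

theorem smul_inj {n : ℕ} {x y : Matrix (Fin N) (Fin N) ℤ_[ℓ]}
    (h : (1 : Matrix (Fin N) (Fin N) ℤ_[ℓ]) + (ℓ : ℤ_[ℓ]) ^ n • x = 1 + (ℓ : ℤ_[ℓ]) ^ n • y) :
    x = y := by
  have h1 := add_left_cancel h
  ext i j
  have h2 := congrFun (congrFun h1 i) j
  simp only [Matrix.smul_apply, smul_eq_mul] at h2
  have h3 : (ℓ : ℤ_[ℓ]) ^ n ≠ 0 := pow_ne_zero _ (by exact_mod_cast (Fact.out : ℓ.Prime).ne_zero)
  exact mul_left_cancel₀ h3 h2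

/-- reduction of a matrix modulo `ℓ` -/
noncomputable def r1 : Matrix (Fin N) (Fin N) ℤ_[ℓ] →+* Matrix (Fin N) (Fin N) (ZMod ℓ) :=
  (PadicInt.toZMod (p := ℓ)).mapMatrix

theorem r1_smul (x : Matrix (Fin N) (Fin N) ℤ_[ℓ]) : r1 ((ℓ : ℤ_[ℓ]) • x) = 0 := by
  ext i j
  change PadicInt.toZMod ((ℓ : ℤ_[ℓ]) * x i j) = 0
  rw [map_mul, map_natCast, ZMod.natCast_self, zero_mul]

theorem r1_eq_zero {x : Matrix (Fin N) (Fin N) ℤ_[ℓ]} (h : r1 x = 0) :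
    ∃ y, x = (ℓ : ℤ_[ℓ]) • y := by
  have h1 : ∀ i j, ∃ c : ℤ_[ℓ], x i j = (ℓ : ℤ_[ℓ]) * c := by
    intro i j
    have h2 : PadicInt.toZMod (x i j) = 0 := congrFun (congrFun h i) j
    rw [← RingHom.mem_ker, PadicInt.ker_toZMod, PadicInt.maximalIdeal_eq_span_p,
      Ideal.mem_span_singleton] at h2
    exact h2
  choose c hc using h1
  exact ⟨Matrix.of c, by ext i j; simp [hc]⟩

/-- the leading term -/
noncomputable def lead {n : ℕ} (g : (red ℓ N n).ker) : Matrix (Fin N) (Fin N) (ZMod ℓ) :=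
  r1 (mem_ker_red.1 g.2).choose

theorem lead_eq {n : ℕ} (g : (red ℓ N n).ker) {x : Matrix (Fin N) (Fin N) ℤ_[ℓ]}
    (hx : ((g : GL (Fin N) ℤ_[ℓ]) : Matrix (Fin N) (Fin N) ℤ_[ℓ]) = 1 + (ℓ : ℤ_[ℓ]) ^ n • x) :
    lead g = r1 x := by
  unfold lead
  congr 1
  apply smul_inj (n := n)
  rw [← hx]
  exact (mem_ker_red.1 g.2).choose_spec.symm

theorem lead_spec {n : ℕ} (g : (red ℓ N n).ker) : ∃ x : Matrix (Fin N) (Fin N) ℤ_[ℓ],
    ((g : GL (Fin N) ℤ_[ℓ]) : Matrix (Fin N) (Fin N) ℤ_[ℓ]) = 1 + (ℓ : ℤ_[ℓ]) ^ n • x ∧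
      lead g = r1 x :=
  ⟨_, (mem_ker_red.1 g.2).choose_spec, rfl⟩

theorem lead_mul {n : ℕ} (hn : 1 ≤ n) (g h : (red ℓ N n).ker) :
    lead (g * h) = lead g + lead h := by
  obtain ⟨x, hx, hgx⟩ := lead_spec g
  obtain ⟨y, hy, hhy⟩ := lead_spec h
  obtain ⟨t, rfl⟩ : ∃ t, n = t + 1 := ⟨n - 1, by omega⟩
  have h1 : (((g * h : (red ℓ N (t + 1)).ker) : GL (Fin N) ℤ_[ℓ]) : Matrix (Fin N) (Fin N) ℤ_[ℓ]) =
      1 + (ℓ : ℤ_[ℓ]) ^ (t + 1) • (x + y + (ℓ : ℤ_[ℓ]) • ((ℓ : ℤ_[ℓ]) ^ t • (x * y))) := by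
    rw [Subgroup.coe_mul, Units.val_mul, hx, hy]
    simp only [mul_add, add_mul, one_mul, mul_one, smul_add, smul_mul_assoc, mul_smul_comm]
    rw [← mul_smul (ℓ : ℤ_[ℓ]) ((ℓ : ℤ_[ℓ]) ^ t) (x * y), ← pow_succ']
    abel
  rw [lead_eq _ h1, hgx, hhy, map_add, map_add, r1_smul, add_zero]

/-- the leading term as a homomorphism -/
noncomputable def leadHom (n : ℕ) (hn : 1 ≤ n) :
    (red ℓ N n).ker →* Multiplicative (Matrix (Fin N) (Fin N) (ZMod ℓ)) where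
  toFun g := Multiplicative.ofAdd (lead g)
  map_one' := by
    rw [← ofAdd_zero]
    congr 1
    rw [lead_eq (1 : (red ℓ N n).ker) (x := 0) (by simp)]
    exact map_zero _
  map_mul' g h := by
    rw [lead_mul hn, ofAdd_add]

theorem lead_zero_iff {n : ℕ} (g : (red ℓ N n).ker) :
    lead g = 0 ↔ (g : GL (Fin N) ℤ_[ℓ]) ∈ (red ℓ N (n + 1)).ker := by
  obtain ⟨x, hx, hgx⟩ := lead_spec g
  rw [hgx, mem_ker_red]
  constructor
  · intro h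
    obtain ⟨y, hy⟩ := r1_eq_zero h
    exact ⟨y, by rw [hx, hy, smul_smul, pow_succ]⟩
  · rintro ⟨y, hy⟩
    have h1 : x = (ℓ : ℤ_[ℓ]) • y := by
      apply smul_inj (n := n)
      rw [← hx, hy, smul_smul, pow_succ]
    rw [h1, r1_smul]

/-- the powers of a matrix congruent to one -/
theorem one_add_pow_l (n : ℕ) (hn : 2 ≤ n) (x : Matrix (Fin N) (Fin N) ℤ_[ℓ]) :
    ∃ y : Matrix (Fin N) (Fin N) ℤ_[ℓ],
      (1 + (ℓ : ℤ_[ℓ]) ^ n • x) ^ ℓ = 1 + (ℓ : ℤ_[ℓ]) ^ (n + 1) • (x + (ℓ : ℤ_[ℓ]) • y) := by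
  have key : ∀ k : ℕ, ∃ y : Matrix (Fin N) (Fin N) ℤ_[ℓ],
      (1 + (ℓ : ℤ_[ℓ]) ^ n • x) ^ k = 1 + (k : ℤ_[ℓ]) • ((ℓ : ℤ_[ℓ]) ^ n • x) +
        (ℓ : ℤ_[ℓ]) ^ (n + 2) • y := by
    intro k
    induction k with
    | zero => exact ⟨0, by simp⟩
    | succ k ih =>
      obtain ⟨y, hy⟩ := ih
      obtain ⟨t, rfl⟩ : ∃ t, n = t + 2 := ⟨n - 2, by omega⟩
      refine ⟨y + (ℓ : ℤ_[ℓ]) ^ (t + 2) • (y * x) + (k : ℤ_[ℓ]) • ((ℓ : ℤ_[ℓ]) ^ t • (x * x)), ?_⟩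
      rw [pow_succ, hy]
      simp only [mul_add, add_mul, one_mul, mul_one, smul_add, smul_mul_assoc, mul_smul_comm,
        Nat.cast_add, Nat.cast_one, add_smul, smul_smul]
      have h1 : (ℓ : ℤ_[ℓ]) ^ (t + 2) * ((k : ℤ_[ℓ]) * (ℓ : ℤ_[ℓ]) ^ (t + 2)) =
          (ℓ : ℤ_[ℓ]) ^ (t + 2 + 2) * ((k : ℤ_[ℓ]) * (ℓ : ℤ_[ℓ]) ^ t) := by ring
      have h2 : (ℓ : ℤ_[ℓ]) ^ (t + 2) * (ℓ : ℤ_[ℓ]) ^ (t + 2 + 2) =
          (ℓ : ℤ_[ℓ]) ^ (t + 2 + 2) * (ℓ : ℤ_[ℓ]) ^ (t + 2) := by ring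
      rw [h1, h2]
      abel
  obtain ⟨y, hy⟩ := key ℓ
  refine ⟨y, ?_⟩
  rw [hy, smul_add, smul_smul, smul_smul, add_assoc]
  congr 2
  · congr 1
    ring
  · congr 1
    ring

section growth

variable (Γ : Subgroup (GL (Fin N) ℤ_[ℓ]))

/-- the leading terms of a group at level `n` -/
def leads (n : ℕ) : Set (Matrix (Fin N) (Fin N) (ZMod ℓ)) :=
  {X | ∃ g : (red ℓ N n).ker, (g : GL (Fin N) ℤ_[ℓ]) ∈ Γ ∧ lead g = X}

theorem leads_mono (n : ℕ) (hn : 2 ≤ n) : leads Γ n ⊆ leads Γ (n + 1) := by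
  rintro _ ⟨g, hg, rfl⟩
  obtain ⟨x, hx, hgx⟩ := lead_spec g
  obtain ⟨y, hy⟩ := one_add_pow_l n hn x
  have h1 : (((g : GL (Fin N) ℤ_[ℓ]) ^ ℓ : GL (Fin N) ℤ_[ℓ]) : Matrix (Fin N) (Fin N) ℤ_[ℓ]) =
      1 + (ℓ : ℤ_[ℓ]) ^ (n + 1) • (x + (ℓ : ℤ_[ℓ]) • y) := by
    rw [Units.val_pow_eq_pow_val, hx, hy]
  have h2 : (g : GL (Fin N) ℤ_[ℓ]) ^ ℓ ∈ (red ℓ N (n + 1)).ker := mem_ker_red.2 ⟨_, h1⟩
  refine ⟨⟨_, h2⟩, Γ.pow_mem hg ℓ, ?_⟩
  rw [lead_eq ⟨_, h2⟩ h1, map_add, r1_smul, add_zero, hgx]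

theorem exists_stable : ∃ n₀, 2 ≤ n₀ ∧ ∀ n ≥ n₀, leads Γ n = leads Γ n₀ := by
  classical
  -- the cardinalities are bounded and nondecreasing
  have hmono : ∀ i j, i ≤ j → leads Γ (i + 2) ⊆ leads Γ (j + 2) := by
    intro i j hij
    induction j, hij using Nat.le_induction with
    | base => exact subset_rfl
    | succ j _ ih => exact ih.trans (leads_mono Γ (j + 2) (by omega))
  have hfin : ∀ i, (leads Γ i).Finite := fun i => Set.toFinite _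
  obtain ⟨i₀, hi₀⟩ : ∃ i₀, ∀ i, (leads Γ (i + 2)).ncard ≤ (leads Γ (i₀ + 2)).ncard := by
    have hb : ∀ i, (leads Γ (i + 2)).ncard ≤ Nat.card (Matrix (Fin N) (Fin N) (ZMod ℓ)) := by
      intro i
      rw [← Set.ncard_univ]
      exact Set.ncard_le_ncard (Set.subset_univ _)
    by_contra hcon
    push Not at hcon
    have : ∀ c : ℕ, ∃ i, c ≤ (leads Γ (i + 2)).ncard := by
      intro c
      induction c with
      | zero => exact ⟨0, Nat.zero_le _⟩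
      | succ c ih =>
        obtain ⟨i, hi⟩ := ih
        obtain ⟨j, hj⟩ := hcon i
        exact ⟨j, by omega⟩
    obtain ⟨i, hi⟩ := this (Nat.card (Matrix (Fin N) (Fin N) (ZMod ℓ)) + 1)
    have := hb i
    omega
  refine ⟨i₀ + 2, by omega, ?_⟩
  intro n hn
  obtain ⟨i, rfl⟩ : ∃ i, n = i + 2 := ⟨n - 2, by omega⟩
  exact (Set.eq_of_subset_of_ncard_le (hmono i₀ i (by omega)) (hi₀ i) (hfin _)).symm

/-- the order of the next reduction -/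
theorem card_succ (n : ℕ) (hn : 1 ≤ n) :
    Nat.card (Γ.map (red ℓ N (n + 1))) = (leads Γ n).ncard * Nat.card (Γ.map (red ℓ N n)) := by
  -- cardinalities as indices
  have hidx : ∀ m, Nat.card (Γ.map (red ℓ N m)) = (red ℓ N m).ker.relIndex Γ := by
    intro m
    have h1 : (red ℓ N m).ker.relIndex Γ = (⊥ : Subgroup (GL (Fin N) (ZMod (ℓ ^ m)))).relIndex
        (Γ.map (red ℓ N m)) := by
      rw [← Subgroup.relIndex_comap, MonoidHom.comap_bot]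
    rw [h1, Subgroup.relIndex_bot_left]
  have hle : (red ℓ N (n + 1)).ker ≤ (red ℓ N n).ker := by
    intro g hg
    rw [MonoidHom.mem_ker] at hg ⊢
    have h1 : red ℓ N (n + 1) g = red ℓ N (n + 1) 1 := by rw [hg, map_one]
    rw [red_mono (Nat.le_succ n) h1, map_one]
  rw [hidx, hidx]
  -- the kernel at level n + 1 inside the kernel at level n
  have h1 : ((red ℓ N (n + 1)).ker ⊓ Γ).relIndex ((red ℓ N n).ker ⊓ Γ) *
      ((red ℓ N n).ker ⊓ Γ).relIndex Γ = ((red ℓ N (n + 1)).ker ⊓ Γ).relIndex Γ :=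
    Subgroup.relIndex_mul_relIndex _ _ _ (inf_le_inf_right _ hle) inf_le_right
  rw [Subgroup.inf_relIndex_right, Subgroup.inf_relIndex_right] at h1
  rw [← h1]
  congr 1
  -- the quotient as the set of leading terms
  let φ : ((red ℓ N n).ker ⊓ Γ : Subgroup _) →* Multiplicative (Matrix (Fin N) (Fin N) (ZMod ℓ)) :=
    (leadHom n hn).comp (Subgroup.inclusion inf_le_left)
  have h2 : φ.ker = ((red ℓ N (n + 1)).ker ⊓ Γ).subgroupOf ((red ℓ N n).ker ⊓ Γ) := by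
    ext g
    rw [MonoidHom.mem_ker, Subgroup.mem_subgroupOf, Subgroup.mem_inf]
    have h3 : φ g = 1 ↔ lead (Subgroup.inclusion inf_le_left g : (red ℓ N n).ker) = 0 := by
      change Multiplicative.ofAdd (lead (Subgroup.inclusion inf_le_left g : (red ℓ N n).ker)) = 1 ↔ _
      exact ofAdd_eq_one
    rw [h3, lead_zero_iff]
    exact ⟨fun h => ⟨h, g.2.2⟩, fun h => h.1⟩
  have h3 : ((red ℓ N (n + 1)).ker ⊓ Γ).relIndex ((red ℓ N n).ker ⊓ Γ) = Nat.card φ.range := by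
    rw [Subgroup.relIndex, ← h2, Subgroup.index_ker]
  rw [h3]
  have h4 : leads Γ n = Multiplicative.toAdd '' (φ.range : Set (Multiplicative _)) := by
    ext X
    constructor
    · rintro ⟨g, hg, rfl⟩
      exact ⟨_, ⟨⟨g.1, g.2, hg⟩, rfl⟩, rfl⟩
    · rintro ⟨_, ⟨g, rfl⟩, rfl⟩
      exact ⟨Subgroup.inclusion inf_le_left g, g.2.2, rfl⟩
  rw [h4, Set.ncard_image_of_injective _ Multiplicative.toAdd.injective]
  rfl

/-- the number of leading terms is a power of `ℓ` -/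
theorem card_leads (n : ℕ) (hn : 1 ≤ n) : ∃ d ≤ N ^ 2, (leads Γ n).ncard = ℓ ^ d := by
  let A : AddSubgroup (Matrix (Fin N) (Fin N) (ZMod ℓ)) :=
    { carrier := leads Γ n
      zero_mem' := ⟨1, Γ.one_mem, by
        rw [lead_eq (1 : (red ℓ N n).ker) (x := 0) (by simp)]
        exact map_zero _⟩
      add_mem' := by
        rintro _ _ ⟨g, hg, rfl⟩ ⟨h, hh, rfl⟩
        exact ⟨g * h, Γ.mul_mem hg hh, lead_mul hn g h⟩
      neg_mem' := by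
        rintro _ ⟨g, hg, rfl⟩
        refine ⟨g⁻¹, Γ.inv_mem hg, ?_⟩
        have h1 := lead_mul hn g g⁻¹
        rw [mul_inv_cancel, lead_eq (1 : (red ℓ N n).ker) (x := 0) (by simp), map_zero] at h1
        exact (neg_eq_of_add_eq_zero_right h1.symm).symm }
  have h1 : Nat.card A ∣ Nat.card (Matrix (Fin N) (Fin N) (ZMod ℓ)) := A.card_addSubgroup_dvd_card
  have h2 : Nat.card (Matrix (Fin N) (Fin N) (ZMod ℓ)) = ℓ ^ (N ^ 2) := by
    rw [Matrix, Nat.card_fun, Nat.card_fun, Nat.card_zmod, Nat.card_fin, ← pow_mul, sq]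
  rw [h2, Nat.dvd_prime_pow (Fact.out : ℓ.Prime)] at h1
  obtain ⟨d, hd, hd'⟩ := h1
  exact ⟨d, hd, hd'⟩

/-- **The orders of the reductions grow like `ℓ ^ (n d)`.** -/
theorem exists_dim : ∃ d ≤ N ^ 2, ∃ n₀, ∀ n ≥ n₀,
    Nat.card (Γ.map (red ℓ N (n + 1))) = ℓ ^ d * Nat.card (Γ.map (red ℓ N n)) := by
  obtain ⟨n₀, hn₀, h⟩ := exists_stable Γ
  obtain ⟨d, hd, hd'⟩ := card_leads Γ n₀ (by omega)
  refine ⟨d, hd, n₀, fun n hn => ?_⟩
  rw [card_succ Γ n (by omega), h n hn, hd']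

end growth

end Pool.Agent.H850.TM
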