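import Mathlib

/-!
# The index of a compact group of integral `ℓ`-adic matrices, from its reductions
-/

set_option autoImplicit false
set_option linter.unusedSectionVars false

namespace Pool.Agent.H850.TM

open Filter Topology

variable {ℓ : ℕ} [Fact ℓ.Prime] {N : ℕ}

/-- reduction modulo `ℓ ^ n` -/
noncomputable def red (ℓ : ℕ) [Fact ℓ.Prime] (N n : ℕ) :
    GL (Fin N) ℤ_[ℓ] →* GL (Fin N) (ZMod (ℓ ^ n)) :=
  Matrix.GeneralLinearGroup.map (PadicInt.toZModPow n)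

theorem red_apply (n : ℕ) (g : GL (Fin N) ℤ_[ℓ]) (i j : Fin N) :
    (red ℓ N n g : Matrix (Fin N) (Fin N) (ZMod (ℓ ^ n))) i j =
      PadicInt.toZModPow n ((g : Matrix (Fin N) (Fin N) ℤ_[ℓ]) i j) := rfl

/-- matrices with equal reductions modulo `ℓ ^ n` have equal reductions modulo `ℓ ^ m` -/
theorem red_mono {m n : ℕ} (h : m ≤ n) {g g' : GL (Fin N) ℤ_[ℓ]}
    (hg : red ℓ N n g = red ℓ N n g') : red ℓ N m g = red ℓ N m g' := by
  apply Units.ext
  ext i j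
  have h1 : (red ℓ N n g : Matrix (Fin N) (Fin N) (ZMod (ℓ ^ n))) i j =
      (red ℓ N n g' : Matrix (Fin N) (Fin N) (ZMod (ℓ ^ n))) i j := by rw [hg]
  rw [red_apply, red_apply] at h1 ⊢
  have h2 := PadicInt.zmod_cast_comp_toZModPow (p := ℓ) m n h
  rw [← h2, RingHom.comp_apply, RingHom.comp_apply, h1]

theorem eq_of_red {g g' : GL (Fin N) ℤ_[ℓ]} (h : ∀ n, red ℓ N n g = red ℓ N n g') : g = g' := by
  apply Units.ext
  ext i j
  rw [← PadicInt.ext_of_toZModPow]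
  intro n
  rw [← red_apply, ← red_apply, h n]

instance (n : ℕ) : NeZero (ℓ ^ n) := ⟨pow_ne_zero _ (Fact.out : ℓ.Prime).ne_zero⟩

section index

variable (Γ 𝒢 : Subgroup (GL (Fin N) ℤ_[ℓ])) (hle : Γ ≤ 𝒢)

include hle in
theorem card_mul_relIndex (n : ℕ) :
    Nat.card (Γ.map (red ℓ N n)) * (Γ.map (red ℓ N n)).relIndex (𝒢.map (red ℓ N n)) =
      Nat.card (𝒢.map (red ℓ N n)) := by
  have h1 : Γ.map (red ℓ N n) ≤ 𝒢.map (red ℓ N n) := Subgroup.map_mono hle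
  have h2 := Subgroup.card_mul_index ((Γ.map (red ℓ N n)).subgroupOf (𝒢.map (red ℓ N n)))
  rwa [Nat.card_congr (Subgroup.subgroupOfEquivOfLe h1).toEquiv] at h2

/-- the indices of the reductions are bounded by the index -/
theorem relIndex_red_le (n : ℕ) (h0 : Γ.relIndex 𝒢 ≠ 0) :
    (Γ.map (red ℓ N n)).relIndex (𝒢.map (red ℓ N n)) ≤ Γ.relIndex 𝒢 := by
  rw [← Subgroup.relIndex_comap]
  exact Nat.le_of_dvd (Nat.pos_of_ne_zero h0)
    (Subgroup.relIndex_dvd_of_le_left 𝒢 (Subgroup.le_comap_map _ _))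

theorem relIndex_of_fin {G : Type} [Group G] (Γ 𝒢 : Subgroup G) (B : ℕ)
    (h : ∀ g : Fin (B + 1) → G, (∀ i, g i ∈ 𝒢) → ∃ i j, i ≠ j ∧ (g i)⁻¹ * g j ∈ Γ) :
    0 < Γ.relIndex 𝒢 ∧ Γ.relIndex 𝒢 ≤ B := by
  classical
  have key : ∀ f : Fin (B + 1) → 𝒢 ⧸ Γ.subgroupOf 𝒢, ¬ Function.Injective f := by
    intro f hf
    obtain ⟨i, j, hij, hmem⟩ := h (fun i => ((f i).out : G)) fun i => (f i).out.2
    apply hij
    apply hf
    rw [← QuotientGroup.out_eq' (f i), ← QuotientGroup.out_eq' (f j), QuotientGroup.eq,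
      Subgroup.mem_subgroupOf]
    exact hmem
  have hfin : Finite (𝒢 ⧸ Γ.subgroupOf 𝒢) := by
    by_contra hinf
    rw [not_finite_iff_infinite] at hinf
    exact key (fun i => Infinite.natEmbedding _ i.val)
      ((Infinite.natEmbedding _).injective.comp Fin.val_injective)
  have hcard : Nat.card (𝒢 ⧸ Γ.subgroupOf 𝒢) ≤ B := by
    by_contra hcon
    push Not at hcon
    exact key (fun i => (Finite.equivFin (𝒢 ⧸ Γ.subgroupOf 𝒢)).symm (Fin.castLE hcon i))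
      ((Finite.equivFin _).symm.injective.comp (Fin.castLE_injective hcon))
  exact ⟨Nat.card_pos, hcard⟩

end index

section compact

variable {Γ : Type} [Group Γ] [TopologicalSpace Γ] [IsTopologicalGroup Γ] [CompactSpace Γ]

/-- the kernels of the reductions are open -/
theorem isOpen_ker (ρ : Γ →* GL (Fin N) ℤ_[ℓ])
    (hρ : Continuous fun σ => (ρ σ : Matrix (Fin N) (Fin N) ℤ_[ℓ])) (n : ℕ) :
    IsOpen (((red ℓ N n).comp ρ).ker : Set Γ) := by
  have h1 : (((red ℓ N n).comp ρ).ker : Set Γ) = ⋂ i : Fin N, ⋂ j : Fin N,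
      {σ | (ρ σ : Matrix (Fin N) (Fin N) ℤ_[ℓ]) i j - (1 : Matrix (Fin N) (Fin N) ℤ_[ℓ]) i j ∈
        Metric.closedBall (0 : ℤ_[ℓ]) ((ℓ : ℝ) ^ (-(n : ℕ) : ℤ))} := by
    ext σ
    have h2 : ∀ i j, ((red ℓ N n (ρ σ) : Matrix (Fin N) (Fin N) (ZMod (ℓ ^ n))) i j =
        (1 : Matrix (Fin N) (Fin N) (ZMod (ℓ ^ n))) i j) ↔
        (ρ σ : Matrix (Fin N) (Fin N) ℤ_[ℓ]) i j - (1 : Matrix (Fin N) (Fin N) ℤ_[ℓ]) i j ∈
        Metric.closedBall (0 : ℤ_[ℓ]) ((ℓ : ℝ) ^ (-(n : ℕ) : ℤ)) := by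
      intro i j
      rw [mem_closedBall_zero_iff, PadicInt.norm_le_pow_iff_mem_span_pow, ← PadicInt.ker_toZModPow,
        RingHom.mem_ker, map_sub, sub_eq_zero, red_apply]
      have h3 : PadicInt.toZModPow n ((1 : Matrix (Fin N) (Fin N) ℤ_[ℓ]) i j) =
          (1 : Matrix (Fin N) (Fin N) (ZMod (ℓ ^ n))) i j := by
        rw [Matrix.one_apply, Matrix.one_apply]
        split_ifs
        · exact map_one _
        · exact map_zero _
      rw [h3]
    simp only [SetLike.mem_coe, Set.mem_iInter]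
    constructor
    · intro h i j
      refine (h2 i j).1 ?_
      have h3 : red ℓ N n (ρ σ) = 1 := h
      rw [h3]
      rfl
    · intro h
      change red ℓ N n (ρ σ) = 1
      apply Units.ext
      ext i j
      exact (h2 i j).2 (h i j)
  rw [h1]
  refine isOpen_iInter_of_finite fun i => isOpen_iInter_of_finite fun j => ?_
  have hcont : Continuous fun σ : Γ => (ρ σ : Matrix (Fin N) (Fin N) ℤ_[ℓ]) i j -
      (1 : Matrix (Fin N) (Fin N) ℤ_[ℓ]) i j :=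
    (hρ.matrix_elem i j).sub continuous_const
  exact (IsUltrametricDist.isOpen_closedBall _ (by
    have : (0 : ℝ) < ℓ := by exact_mod_cast (Fact.out : ℓ.Prime).pos
    positivity)).preimage hcont

/-- a matrix all of whose reductions lie in the reductions of the image lies in the image -/
theorem mem_range_of_red (ρ : Γ →* GL (Fin N) ℤ_[ℓ])
    (hρ : Continuous fun σ => (ρ σ : Matrix (Fin N) (Fin N) ℤ_[ℓ])) (g : GL (Fin N) ℤ_[ℓ])
    (hg : ∀ n, ∃ σ, red ℓ N n (ρ σ) = red ℓ N n g) : g ∈ ρ.range := by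
  let S : ℕ → Set Γ := fun n => {σ | red ℓ N n (ρ σ) = red ℓ N n g}
  have hS : ∀ n, IsClosed (S n) := by
    intro n
    obtain ⟨σ₀, hσ₀⟩ := hg n
    have h1 : S n = (fun σ => σ₀⁻¹ * σ) ⁻¹' (((red ℓ N n).comp ρ).ker : Set Γ) := by
      ext σ
      change red ℓ N n (ρ σ) = red ℓ N n g ↔ red ℓ N n (ρ (σ₀⁻¹ * σ)) = 1
      rw [map_mul, map_mul, map_inv, map_inv, inv_mul_eq_one, hσ₀]
      exact eq_comm
    rw [h1]
    exact ((((red ℓ N n).comp ρ).ker).isClosed_of_isOpen (isOpen_ker ρ hρ n)).preimage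
      (continuous_const.mul continuous_id)
  obtain ⟨σ, hσ⟩ := IsCompact.nonempty_iInter_of_sequence_nonempty_isCompact_isClosed S
    (fun n σ hσ => red_mono (Nat.le_succ n) hσ) hg (hS 0).isCompact hS
  refine ⟨σ, eq_of_red fun n => ?_⟩
  exact Set.mem_iInter.1 hσ n

/-- **The index from the reductions.** -/
theorem relIndex_le (ρ : Γ →* GL (Fin N) ℤ_[ℓ])
    (hρ : Continuous fun σ => (ρ σ : Matrix (Fin N) (Fin N) ℤ_[ℓ]))
    (𝒢 : Subgroup (GL (Fin N) ℤ_[ℓ])) (hle : ρ.range ≤ 𝒢) (B : ℕ)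
    (h : ∀ n₀, ∃ n ≥ n₀, Nat.card (𝒢.map (red ℓ N n)) ≤ B * Nat.card (ρ.range.map (red ℓ N n))) :
    0 < ρ.range.relIndex 𝒢 ∧ ρ.range.relIndex 𝒢 ≤ B := by
  classical
  apply relIndex_of_fin
  intro g hg
  -- the indices of the reductions
  have h1 : ∀ n₀, ∃ n ≥ n₀, (ρ.range.map (red ℓ N n)).relIndex (𝒢.map (red ℓ N n)) ≤ B := by
    intro n₀
    obtain ⟨n, hn, hn'⟩ := h n₀
    refine ⟨n, hn, ?_⟩
    have h2 := card_mul_relIndex ρ.range 𝒢 hle n
    rw [← h2, mul_comm] at hn'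
    exact Nat.le_of_mul_le_mul_right hn' Nat.card_pos
  have h2 : ∀ n₀, ∃ n ≥ n₀, ∃ q : Fin (B + 1) × Fin (B + 1), q.1 ≠ q.2 ∧
      red ℓ N n ((g q.1)⁻¹ * g q.2) ∈ ρ.range.map (red ℓ N n) := by
    intro n₀
    obtain ⟨n, hn, hn'⟩ := h1 n₀
    refine ⟨n, hn, ?_⟩
    let f : Fin (B + 1) → (𝒢.map (red ℓ N n)) ⧸
        (ρ.range.map (red ℓ N n)).subgroupOf (𝒢.map (red ℓ N n)) := fun i =>
      QuotientGroup.mk ⟨red ℓ N n (g i), Subgroup.mem_map_of_mem _ (hg i)⟩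
    have hnot : ¬ Function.Injective f := by
      intro hf
      have h3 := Nat.card_le_card_of_injective f hf
      rw [Nat.card_fin] at h3
      exact absurd (h3.trans hn') (by omega)
    rw [Function.Injective] at hnot
    push Not at hnot
    obtain ⟨i, j, hij, hne⟩ := hnot
    refine ⟨(i, j), hne, ?_⟩
    have h3 := QuotientGroup.eq.1 hij
    rw [Subgroup.mem_subgroupOf] at h3
    rw [map_mul, map_inv]
    exact h3
  choose n hn q hq hmem using h2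
  obtain ⟨q₀, hq₀⟩ := Finite.exists_infinite_fiber q
  have hinf : (q ⁻¹' {q₀}).Infinite := Set.infinite_coe_iff.1 hq₀
  obtain ⟨a₀, ha₀⟩ := hinf.nonempty
  refine ⟨q₀.1, q₀.2, ?_, ?_⟩
  · have : q a₀ = q₀ := ha₀
    rw [← this]
    exact hq a₀
  · apply mem_range_of_red ρ hρ
    intro m
    obtain ⟨a, ha, hma⟩ := hinf.exists_gt m
    have hqa : q a = q₀ := ha
    have h3 := hmem a
    rw [hqa] at h3
    obtain ⟨_, ⟨σ, rfl⟩, hσ⟩ := h3
    exact ⟨σ, red_mono (le_trans hma.le (hn a)) hσ⟩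

end compact

end Pool.Agent.H850.TM
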