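import Pool.Agent.H850.TM.Count

/-!
# The sum of the powers of the orders of all kernels
-/

set_option autoImplicit false
set_option linter.unusedSectionVars false

namespace Pool.Agent.H850.TM

open Finset

variable (m : ℕ) [NeZero m] (N : ℕ)

instance : Finite ((Fin N → ZMod m) →ₗ[ZMod m] (Fin N → ZMod m)) :=
  Finite.of_injective (fun f => (f : (Fin N → ZMod m) → (Fin N → ZMod m))) DFunLike.coe_injective

instance (I : Submodule (ZMod m) (Fin N → ZMod m)) :
    Finite (((Fin N → ZMod m) ⧸ I) →ₗ[ZMod m] (Fin N → ZMod m)) :=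
  Finite.of_injective (fun f => (f : ((Fin N → ZMod m) ⧸ I) → (Fin N → ZMod m)))
    DFunLike.coe_injective

theorem ker_fibre [Fintype ((Fin N → ZMod m) →ₗ[ZMod m] (Fin N → ZMod m))]
    [DecidableEq (Submodule (ZMod m) (Fin N → ZMod m))] (I : Submodule (ZMod m) (Fin N → ZMod m)) :
    (Finset.univ.filter fun h : (Fin N → ZMod m) →ₗ[ZMod m] (Fin N → ZMod m) =>
      LinearMap.ker h = I).card ≤ Nat.card ((Fin N → ZMod m) ⧸ I) ^ N := by
  classical
  refine le_trans ?_ (card_hom_le m ((Fin N → ZMod m) ⧸ I) N)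
  have hinj : Function.Injective fun h : {h : (Fin N → ZMod m) →ₗ[ZMod m] (Fin N → ZMod m) //
      LinearMap.ker h = I} => (I.liftQ h.1 h.2.ge :
        ((Fin N → ZMod m) ⧸ I) →ₗ[ZMod m] (Fin N → ZMod m)) := by
    intro h h' e
    apply Subtype.ext
    apply LinearMap.ext
    intro x
    have := LinearMap.congr_fun e (Submodule.Quotient.mk x)
    exact this
  have h1 := Nat.card_le_card_of_injective _ hinj
  rwa [Nat.card_eq_fintype_card, Fintype.card_subtype] at h1

/-- the sum of the `k`-th powers of the orders of the kernels of all endomorphisms -/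
theorem sum_ker_le (k : ℕ) (hk : 2 * N + 1 ≤ k)
    [Fintype ((Fin N → ZMod m) →ₗ[ZMod m] (Fin N → ZMod m))] :
    ∑ h : (Fin N → ZMod m) →ₗ[ZMod m] (Fin N → ZMod m), (Nat.card (LinearMap.ker h) : ℝ) ^ k ≤
      cst N (k - N) * (m : ℝ) ^ (N * k) := by
  classical
  have : Fintype (Submodule (ZMod m) (Fin N → ZMod m)) := Fintype.ofFinite _
  have hm : (0 : ℝ) < m := by exact_mod_cast Nat.pos_of_ne_zero (NeZero.ne m)
  calc ∑ h : (Fin N → ZMod m) →ₗ[ZMod m] (Fin N → ZMod m), (Nat.card (LinearMap.ker h) : ℝ) ^ k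
      = ∑ I ∈ Finset.univ.image fun h : (Fin N → ZMod m) →ₗ[ZMod m] (Fin N → ZMod m) =>
          LinearMap.ker h, (Finset.univ.filter fun h => LinearMap.ker h = I).card •
            (Nat.card I : ℝ) ^ k :=
        Finset.sum_comp (fun I : Submodule (ZMod m) (Fin N → ZMod m) => (Nat.card I : ℝ) ^ k) _
    _ ≤ ∑ I ∈ Finset.univ.image fun h : (Fin N → ZMod m) →ₗ[ZMod m] (Fin N → ZMod m) =>
          LinearMap.ker h, (Nat.card ((Fin N → ZMod m) ⧸ I) : ℝ) ^ N * (Nat.card I : ℝ) ^ k := by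
        refine Finset.sum_le_sum fun I _ => ?_
        rw [nsmul_eq_mul]
        apply mul_le_mul_of_nonneg_right _ (by positivity)
        exact_mod_cast ker_fibre m N I
    _ ≤ ∑ I : Submodule (ZMod m) (Fin N → ZMod m),
          (Nat.card ((Fin N → ZMod m) ⧸ I) : ℝ) ^ N * (Nat.card I : ℝ) ^ k :=
        Finset.sum_le_sum_of_subset_of_nonneg (Finset.subset_univ _) fun I _ _ => by positivity
    _ = ∑ I : Submodule (ZMod m) (Fin N → ZMod m), wt m I ^ (k - N) * (m : ℝ) ^ (N * k) := by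
        refine Finset.sum_congr rfl fun I _ => ?_
        have h1 := wt_mul_quot m I
        have h2 : (Nat.card I : ℝ) = wt m I * (m : ℝ) ^ N := by
          unfold wt
          rw [div_mul_cancel₀ _ (by positivity)]
        obtain ⟨t, rfl⟩ : ∃ t, k = t + N := ⟨k - N, by omega⟩
        rw [h2, Nat.add_sub_cancel, mul_pow, ← pow_mul, pow_add (wt m I) t N]
        calc _ = (wt m I * (Nat.card ((Fin N → ZMod m) ⧸ I) : ℝ)) ^ N * wt m I ^ t *
              (m : ℝ) ^ (N * (t + N)) := by ring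
          _ = _ := by rw [h1, one_pow, one_mul]
    _ = Zs m N (k - N) * (m : ℝ) ^ (N * k) := by
        rw [Zs_eq, Finset.sum_mul]
    _ ≤ _ := by
        apply mul_le_mul_of_nonneg_right (Zs_le m N (k - N) (by omega)) (by positivity)

/-- the number of fixed vectors of a matrix -/
noncomputable def fix {m N : ℕ} (g : GL (Fin N) (ZMod m)) : ℕ :=
  Nat.card {x : Fin N → ZMod m // (g : Matrix (Fin N) (Fin N) (ZMod m)).mulVec x = x}

theorem fix_one : fix (1 : GL (Fin N) (ZMod m)) = m ^ N := by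
  unfold fix
  rw [← card_T m N]
  refine Nat.card_congr (Equiv.subtypeUnivEquiv fun x => ?_)
  rw [Units.val_one, Matrix.one_mulVec]

theorem fix_le (g : GL (Fin N) (ZMod m)) : fix g ≤ m ^ N := by
  unfold fix
  rw [← card_T m N]
  exact Nat.card_le_card_of_injective _ Subtype.val_injective

theorem fix_eq_ker (g : GL (Fin N) (ZMod m)) :
    fix g = Nat.card (LinearMap.ker (Matrix.toLin' (g : Matrix (Fin N) (Fin N) (ZMod m)) - 1)) := by
  unfold fix
  refine Nat.card_congr (Equiv.subtypeEquivRight fun x => ?_)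
  rw [LinearMap.mem_ker, LinearMap.sub_apply, sub_eq_zero, Matrix.toLin'_apply]
  rfl

/-- **Moments of the numbers of fixed vectors**: upper bound. -/
theorem sum_fix_le (H : Subgroup (GL (Fin N) (ZMod m))) [Fintype H] (k : ℕ) (hk : 2 * N + 1 ≤ k) :
    ∑ g : H, (fix (g : GL (Fin N) (ZMod m)) : ℝ) ^ k ≤ cst N (k - N) * (m : ℝ) ^ (N * k) := by
  classical
  have : Fintype ((Fin N → ZMod m) →ₗ[ZMod m] (Fin N → ZMod m)) := Fintype.ofFinite _
  refine le_trans ?_ (sum_ker_le m N k hk)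
  let Φ : H → ((Fin N → ZMod m) →ₗ[ZMod m] (Fin N → ZMod m)) := fun g =>
    Matrix.toLin' ((g : GL (Fin N) (ZMod m)) : Matrix (Fin N) (Fin N) (ZMod m)) - 1
  have hΦ : Function.Injective Φ := by
    intro g g' h
    have h1 := sub_left_injective h
    have h2 := Matrix.toLin'.injective h1
    exact Subtype.ext (Units.ext h2)
  have h1 : ∑ g : H, (fix (g : GL (Fin N) (ZMod m)) : ℝ) ^ k =
      ∑ h ∈ Finset.univ.image Φ, (Nat.card (LinearMap.ker h) : ℝ) ^ k := by
    rw [Finset.sum_image fun g _ g' _ h => hΦ h]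
    exact Finset.sum_congr rfl fun g _ => by rw [fix_eq_ker]
  rw [h1]
  exact Finset.sum_le_sum_of_subset_of_nonneg (Finset.subset_univ _) fun h _ _ => by positivity

/-- lower bound -/
theorem le_sum_fix (H : Subgroup (GL (Fin N) (ZMod m))) [Fintype H] (k : ℕ) :
    (m : ℝ) ^ (N * k) ≤ ∑ g : H, (fix (g : GL (Fin N) (ZMod m)) : ℝ) ^ k := by
  have h1 : (m : ℝ) ^ (N * k) = (fix ((1 : H) : GL (Fin N) (ZMod m)) : ℝ) ^ k := by
    rw [OneMemClass.coe_one, fix_one, Nat.cast_pow, ← pow_mul]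
  rw [h1]
  exact Finset.single_le_sum (f := fun g : H => (fix (g : GL (Fin N) (ZMod m)) : ℝ) ^ k)
    (fun g _ => by positivity) (Finset.mem_univ 1)

end Pool.Agent.H850.TM
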